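import Mathlib
import Pool.Agent.V11115.Rooted

/-!
The supremum of the independence ratio of highly irregular trees is `79/127`.
-/

namespace Pool.Agent.Results.MP_913bbb_co.HighlyIrregularTrees

open SimpleGraph V11115

/-- Any two distinct neighbours of a vertex have different degrees. -/
def HighlyIrregular {V : Type} (G : SimpleGraph V) [G.LocallyFinite] : Prop :=
  ∀ v u w, G.Adj v u → G.Adj v w → u ≠ w → G.degree u ≠ G.degree w

/-- Table of potentials. -/
def Ut : List (List (List ℤ)) :=
  [[[-79, -79, -79, -79, -79, -79, -79],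
    [-70, -31, -31, -31, -31, -31, -31],
    [-70, -39, -14, -14, -14, -14, -14],
    [-70, -39, -25, -11, -11, -11, -11],
    [-74, -43, -35, -18, -13, -13, -13],
    [-74, -43, -35, -31, -13, -13, -13],
    [-80, -49, -41, -37, -29, -19, -16]],
   [[48, 48, 48, 48, 48, 48, 48],
    [17, 9, 17, 17, 17, 17, 17],
    [9, 9, -8, 3, 9, 9, 9],
    [5, 5, -12, -15, -8, 5, 5],
    [-3, -3, -18, -21, -19, -19, -3],
    [-22, -22, -22, -22, -22, -22, -22],
    [-22, -22, -22, -22, -22, -22, -22]]]

/-- Table of thresholds. -/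
def Tt : List (List (List ℤ)) :=
  [[[48, 1000, 1000, 1000, 1000, 1000, 1000, 1000], [9, 9, 48, 48, 48, 48, 48, 48],
    [-8, -8, -8, 17, 17, 17, 17, 17], [-11, -11, -11, -11, 3, 3, 3, 3],
    [-13, -13, -13, -13, -13, -8, -8, -8], [-13, -13, -13, -13, -13, -13, -13, -13],
    [-16, -16, -16, -16, -16, -16, -16, -13]],
   [[-70, 1000, 1000, 1000, 1000, 1000, 1000, 1000], [-39, -31, -39, -31, -31, -31, -31, -31],
    [-31, -25, -25, -31, -31, -25, -25, -25], [-31, -18, -18, -31, -31, -31, -18, -18],
    [-29, -14, -14, -29, -29, -29, -29, -14], [-19, -19, -19, -19, -19, -19, -19, -19],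
    [-16, -16, -16, -16, -16, -16, -16, -16]]]

/-- Potential of a vertex of degree class `c`, in `I` iff `x`, below a vertex of class `p`. -/
def UU (x : Bool) (c p : ℕ) : ℤ :=
  ((Ut.getD (if x then 1 else 0) []).getD (c - 1) []).getD (p - 1) 0

/-- Threshold. -/
def th (x : Bool) (c p : ℕ) : ℤ :=
  ((Tt.getD (if x then 1 else 0) []).getD (c - 1) []).getD p 0

/-- Best value of a child of class `j`. -/
def BB (x : Bool) (j c : ℕ) : ℤ :=
  if x then UU false j c else max (UU false j c) (UU true j c)

/-- Target value (`p = 0` for the root). -/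
def tgt (x : Bool) (c p : ℕ) : ℤ := if p = 0 then -22 else UU x c p

/-- Class of a degree. -/
def cl (d : ℕ) : ℕ := min d 7

theorem check : ∀ x : Bool, ∀ c ∈ Finset.Icc 1 7, ∀ p ∈ Finset.Icc 0 7,
    BB x 7 c ≤ th x c p ∧ (c = 7 → th x c p ≤ 0) ∧
    127 * (if x then 1 else 0) - 79 + ((if p = 0 then c else c - 1 : ℕ) : ℤ) * th x c p +
      ∑ i ∈ Finset.Icc 1 6, (if i = p then 0 else max 0 (BB x i c - th x c p)) ≤ tgt x c p := by
  decide +kernel

theorem children_sum {V : Type} [DecidableEq V] (C : Finset V) (deg : V → ℕ) (xs : V → Bool)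
    (hinj : ∀ u ∈ C, ∀ w ∈ C, deg u = deg w → u = w) (hpos : ∀ u ∈ C, 1 ≤ deg u)
    (p c : ℕ) (x : Bool) (hp : ∀ u ∈ C, deg u ≤ 6 → deg u ≠ p)
    (hx : x = true → ∀ u ∈ C, xs u = false) (θ : ℤ) (hθ : BB x 7 c ≤ θ) :
    ∑ u ∈ C, UU (xs u) (cl (deg u)) c ≤ (C.card : ℤ) * θ +
      ∑ i ∈ Finset.Icc 1 6, (if i = p then 0 else max 0 (BB x i c - θ)) := by
  have h1 : ∀ u ∈ C, UU (xs u) (cl (deg u)) c ≤ θ + ∑ i ∈ Finset.Icc 1 6,
      (if deg u = i then (if i = p then 0 else max 0 (BB x i c - θ)) else 0) := by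
    intro u hu
    have hB : UU (xs u) (cl (deg u)) c ≤ BB x (cl (deg u)) c := by
      unfold BB
      cases x with
      | true => simp [hx rfl u hu]
      | false => cases xs u <;> simp
    refine hB.trans ?_
    have hpu := hpos u hu
    by_cases hd : deg u ≤ 6
    · have hc : cl (deg u) = deg u := by unfold cl; omega
      rw [hc, Finset.sum_ite_eq, if_pos (Finset.mem_Icc.mpr ⟨hpu, hd⟩), if_neg (hp u hu hd)]
      have := le_max_right 0 (BB x (deg u) c - θ)
      linarith
    · have hc : cl (deg u) = 7 := by unfold cl; omega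
      rw [hc, Finset.sum_ite_eq, if_neg (by rw [Finset.mem_Icc]; omega)]
      linarith
  have h2 := Finset.sum_le_sum h1
  rw [Finset.sum_add_distrib, Finset.sum_const, nsmul_eq_mul, Finset.sum_comm] at h2
  refine h2.trans ?_
  have h3 : ∀ i ∈ Finset.Icc 1 6, ∑ u ∈ C,
      (if deg u = i then (if i = p then 0 else max 0 (BB x i c - θ)) else 0) ≤
      (if i = p then 0 else max 0 (BB x i c - θ)) := by
    intro i _
    have hm : (0 : ℤ) ≤ (if i = p then 0 else max 0 (BB x i c - θ)) := by
      split_ifs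
      · exact le_refl 0
      · exact le_max_left _ _
    generalize (if i = p then (0 : ℤ) else max 0 (BB x i c - θ)) = m at *
    rw [← Finset.sum_filter, Finset.sum_const, nsmul_eq_mul]
    have hcard : (C.filter (fun u => deg u = i)).card ≤ 1 := by
      rw [Finset.card_le_one]
      intro a ha b hb
      rw [Finset.mem_filter] at ha hb
      exact hinj a ha.1 b hb.1 (by rw [ha.2, hb.2])
    have : ((C.filter (fun u => deg u = i)).card : ℤ) ≤ 1 := by exact_mod_cast hcard
    nlinarith
  have h4 := Finset.sum_le_sum h3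
  linarith

theorem upper {V : Type} [Fintype V] (G : SimpleGraph V) [DecidableRel G.Adj] (hG : G.IsTree)
    (hH : HighlyIrregular G) (hV : 2 ≤ Fintype.card V) (I : Finset V)
    (hI : ∀ u ∈ I, ∀ v ∈ I, ¬ G.Adj u v) :
    127 * (I.card : ℤ) ≤ 79 * (Fintype.card V : ℤ) - 22 := by
  classical
  have hnt : Nontrivial V := Fintype.one_lt_card_iff_nontrivial.mp (by omega)
  obtain ⟨r⟩ := hG.connected.nonempty
  obtain ⟨R, _⟩ := exists_rooting hG r
  have hdpos : ∀ v, 1 ≤ G.degree v := fun v =>
    hG.connected.preconnected.degree_pos_of_nontrivial v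
  let x : V → Bool := fun v => decide (v ∈ I)
  -- degree and number of children
  have hdeg : ∀ v, G.degree v = (R.children v).card + (if v ≠ R.root then 1 else 0) := by
    intro v
    have := R.card_nbr Finset.univ v
    rw [Finset.inter_univ, G.card_neighborFinset_eq_degree] at this
    simpa using this
  let a : V → ℤ := fun v => if v = R.root then -22 else
    UU (x v) (cl (G.degree v)) (cl (G.degree (R.par v)))
  let b : V → ℤ := fun v => 127 * (if x v then 1 else 0) - 79
  have key : ∀ v, b v + ∑ c ∈ R.children v, a c ≤ a v := by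
    intro v
    let p : ℕ := if v = R.root then 0 else cl (G.degree (R.par v))
    have hcv : cl (G.degree v) ∈ Finset.Icc 1 7 := by
      have := hdpos v
      rw [Finset.mem_Icc]; unfold cl; omega
    have hp7 : p ∈ Finset.Icc 0 7 := by
      rw [Finset.mem_Icc]; simp only [p]; unfold cl; split_ifs <;> omega
    obtain ⟨c1, c2, c3⟩ := check (x v) _ hcv _ hp7
    have hac : ∀ c ∈ R.children v, a c = UU (x c) (cl (G.degree c)) (cl (G.degree v)) := by
      intro c hc
      rw [R.mem_children] at hc
      simp only [a, if_neg hc.1]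
      rw [hc.2]
    rw [Finset.sum_congr rfl hac]
    have hadj : ∀ c ∈ R.children v, G.Adj v c := by
      intro c hc
      rw [R.mem_children] at hc
      rw [R.adj_iff]; right; exact hc
    have hsum := children_sum (R.children v) (fun u => G.degree u) x
      (by
        intro u hu w hw h
        by_contra hne
        exact hH v u w (hadj u hu) (hadj w hw) hne h)
      (fun u _ => hdpos u) p (cl (G.degree v)) (x v)
      (by
        intro u hu hu6 h
        simp only [p] at h
        by_cases hv : v = R.root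
        · rw [if_pos hv] at h
          have := hdpos u
          omega
        · rw [if_neg hv] at h
          have hpv : G.Adj v (R.par v) := by rw [R.adj_iff]; left; exact ⟨hv, rfl⟩
          have hne : u ≠ R.par v := by
            rintro rfl
            have h1 := (R.mem_children).mp hu
            have h2 := R.par_dep _ h1.1
            have h3 := R.par_dep v hv
            rw [h1.2] at h2
            omega
          refine hH v u (R.par v) (hadj u hu) hpv hne ?_
          unfold cl at h
          omega)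
      (by
        intro hxv u hu
        simp only [x, decide_eq_true_eq] at hxv
        simp only [x, decide_eq_false_iff_not]
        intro huI
        exact hI v hxv u huI (hadj u hu))
      (th (x v) (cl (G.degree v)) p) c1
    have htgt : a v = tgt (x v) (cl (G.degree v)) p := by
      simp only [a, tgt, p]
      by_cases hv : v = R.root
      · simp [hv]
      · simp only [if_neg hv]
        have : cl (G.degree (R.par v)) ≠ 0 := by
          have := hdpos (R.par v)
          unfold cl; omega
        simp [this]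
    have hk : ((R.children v).card : ℤ) * th (x v) (cl (G.degree v)) p ≤
        ((if p = 0 then cl (G.degree v) else cl (G.degree v) - 1 : ℕ) : ℤ) *
          th (x v) (cl (G.degree v)) p := by
      have hd := hdeg v
      have hp0 : p = 0 ↔ v = R.root := by
        by_cases hv : v = R.root
        · simp [p, hv]
        · have hpp : p = cl (G.degree (R.par v)) := if_neg hv
          have := hdpos (R.par v)
          rw [hpp]
          constructor
          · intro h; unfold cl at h; omega
          · intro h; exact absurd h hv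
      by_cases h7 : G.degree v ≤ 7
      · have hc : cl (G.degree v) = G.degree v := by unfold cl; omega
        have : (R.children v).card = (if p = 0 then cl (G.degree v) else cl (G.degree v) - 1) := by
          rw [hc]
          by_cases hv : v = R.root
          · rw [if_pos (hp0.mpr hv)]; simp [hv] at hd ⊢; omega
          · rw [if_neg (fun h => hv (hp0.mp h))]; simp [hv] at hd ⊢; omega
        rw [this]
      · have hc : cl (G.degree v) = 7 := by unfold cl; omega
        have hneg := c2 hc
        have : (if p = 0 then cl (G.degree v) else cl (G.degree v) - 1) ≤ (R.children v).card := by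
          rw [hc]
          by_cases hv : v = R.root
          · rw [if_pos (hp0.mpr hv)]; simp [hv] at hd ⊢; omega
          · rw [if_neg (fun h => hv (hp0.mp h))]; simp [hv] at hd ⊢; omega
        have h' : ((if p = 0 then cl (G.degree v) else cl (G.degree v) - 1 : ℕ) : ℤ) ≤
            ((R.children v).card : ℤ) := by exact_mod_cast this
        exact mul_le_mul_of_nonpos_right h' hneg
    rw [htgt]
    simp only [b]
    linarith
  have htel := R.telescope a b key
  have har : a R.root = -22 := by simp [a]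
  have hb : ∑ v, b v = 127 * (I.card : ℤ) - 79 * (Fintype.card V : ℤ) := by
    simp only [b, Finset.sum_sub_distrib, ← Finset.mul_sum]
    congr 1
    · congr 1
      simp [x]
    · simp [mul_comm]
  rw [har, hb] at htel
  linarith

/-! ### The family of trees -/

set_option maxRecDepth 20000 in
/-- parents in a block -/
def tpB : List ℕ :=
  [0, 0, 0, 2, 3, 0, 5, 6, 6, 8, 9, 5, 11, 11, 13, 14, 11, 16, 16, 18, 19, 16, 21, 22, 22, 24, 25,
   21, 27, 0, 29, 29, 31, 32, 29, 34, 35, 35, 37, 38, 34, 40, 40, 42, 43, 40, 45, 45, 47, 48, 45,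
   50, 51, 51, 53, 54, 50, 56, 29, 58, 58, 60, 61, 58, 63, 64, 64, 66, 67, 63, 69, 69, 71, 72, 69,
   74, 74, 76, 77, 74, 79, 80, 80, 82, 83, 79, 85, 58, 87, 88, 88, 90, 91, 88, 93, 94, 94, 96, 97,
   93, 99, 87, 101, 101, 103, 104, 87, 106, 106, 108, 109, 106, 111, 112, 112, 114, 115, 111, 117,
   117, 119, 120, 117, 122, 122, 124, 125, 122, 127, 128, 128, 130, 131, 127, 133, 106, 135, 135,
   137, 138, 135, 140, 141, 141, 143, 144, 140, 146, 146, 148, 149, 146, 151, 151, 153, 154, 151,
   156, 157, 157, 159, 160, 156, 162, 135, 164, 165, 165, 167, 168, 165, 170, 171, 171, 173, 174,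
   170, 176, 164, 178, 178, 180, 181, 164, 183, 58, 185, 185, 187, 188, 185, 190, 191, 191, 193,
   194, 190, 196, 196, 198, 199, 196, 201, 201, 203, 204, 201, 206, 207, 207, 209, 210, 206, 212,
   185, 214, 215, 215, 217, 218, 215, 220, 221, 221, 223, 224, 220, 226, 214, 228, 228, 230, 231,
   214, 233, 29, 235, 236, 236, 238, 239, 236, 241, 242, 242, 244, 245, 241, 247, 235, 249, 249,
   251, 252]

set_option maxRecDepth 20000 in
/-- degrees in a block -/
def tdB : List ℕ :=
  [5, 1, 2, 2, 1, 3, 3, 1, 2, 2, 1, 4, 1, 2, 2, 1, 4, 1, 2, 2, 1, 3, 3, 1, 2, 2, 1, 2, 1, 6, 1, 2,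
   2, 1, 3, 3, 1, 2, 2, 1, 4, 1, 2, 2, 1, 4, 1, 2, 2, 1, 3, 3, 1, 2, 2, 1, 2, 1, 6, 1, 2, 2, 1, 3,
   3, 1, 2, 2, 1, 4, 1, 2, 2, 1, 4, 1, 2, 2, 1, 3, 3, 1, 2, 2, 1, 2, 1, 4, 4, 1, 2, 2, 1, 3, 3, 1,
   2, 2, 1, 2, 1, 3, 1, 2, 2, 1, 5, 1, 2, 2, 1, 3, 3, 1, 2, 2, 1, 4, 1, 2, 2, 1, 4, 1, 2, 2, 1, 3,
   3, 1, 2, 2, 1, 2, 1, 5, 1, 2, 2, 1, 3, 3, 1, 2, 2, 1, 4, 1, 2, 2, 1, 4, 1, 2, 2, 1, 3, 3, 1, 2,
   2, 1, 2, 1, 4, 4, 1, 2, 2, 1, 3, 3, 1, 2, 2, 1, 2, 1, 3, 1, 2, 2, 1, 2, 1, 5, 1, 2, 2, 1, 3, 3,
   1, 2, 2, 1, 4, 1, 2, 2, 1, 4, 1, 2, 2, 1, 3, 3, 1, 2, 2, 1, 2, 1, 4, 4, 1, 2, 2, 1, 3, 3, 1, 2,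
   2, 1, 2, 1, 3, 1, 2, 2, 1, 2, 1, 4, 4, 1, 2, 2, 1, 3, 3, 1, 2, 2, 1, 2, 1, 3, 1, 2, 2, 1]

set_option maxRecDepth 20000 in
/-- the independent set in a block -/
def tiB : List ℕ :=
  [0, 1, 1, 0, 1, 1, 0, 1, 1, 0, 1, 0, 1, 1, 0, 1, 0, 1, 1, 0, 1, 1, 0, 1, 1, 0, 1, 0, 1, 0, 1, 1,
   0, 1, 1, 0, 1, 1, 0, 1, 0, 1, 1, 0, 1, 0, 1, 1, 0, 1, 1, 0, 1, 1, 0, 1, 0, 1, 0, 1, 1, 0, 1, 1,
   0, 1, 1, 0, 1, 0, 1, 1, 0, 1, 0, 1, 1, 0, 1, 1, 0, 1, 1, 0, 1, 0, 1, 1, 0, 1, 1, 0, 1, 1, 0, 1,
   1, 0, 1, 0, 1, 0, 1, 1, 0, 1, 0, 1, 1, 0, 1, 1, 0, 1, 1, 0, 1, 0, 1, 1, 0, 1, 0, 1, 1, 0, 1, 1,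
   0, 1, 1, 0, 1, 0, 1, 0, 1, 1, 0, 1, 1, 0, 1, 1, 0, 1, 0, 1, 1, 0, 1, 0, 1, 1, 0, 1, 1, 0, 1, 1,
   0, 1, 0, 1, 1, 0, 1, 1, 0, 1, 1, 0, 1, 1, 0, 1, 0, 1, 0, 1, 1, 0, 1, 0, 1, 0, 1, 1, 0, 1, 1, 0,
   1, 1, 0, 1, 0, 1, 1, 0, 1, 0, 1, 1, 0, 1, 1, 0, 1, 1, 0, 1, 0, 1, 1, 0, 1, 1, 0, 1, 1, 0, 1, 1,
   0, 1, 0, 1, 0, 1, 1, 0, 1, 0, 1, 1, 0, 1, 1, 0, 1, 1, 0, 1, 1, 0, 1, 0, 1, 0, 1, 1, 0, 1]

set_option maxRecDepth 20000 in
/-- children in a block -/
def tcB : List (List ℕ) :=
  [[1, 2, 5, 29], [], [3], [4], [], [6, 11], [7, 8], [], [9], [10], [], [12, 13, 16], [], [14],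
   [15], [], [17, 18, 21], [], [19], [20], [], [22, 27], [23, 24], [], [25], [26], [], [28], [],
   [30, 31, 34, 58, 235], [], [32], [33], [], [35, 40], [36, 37], [], [38], [39], [], [41, 42, 45],
   [], [43], [44], [], [46, 47, 50], [], [48], [49], [], [51, 56], [52, 53], [], [54], [55], [],
   [57], [], [59, 60, 63, 87, 185], [], [61], [62], [], [64, 69], [65, 66], [], [67], [68], [],
   [70, 71, 74], [], [72], [73], [], [75, 76, 79], [], [77], [78], [], [80, 85], [81, 82], [],
   [83], [84], [], [86], [], [88, 101, 106], [89, 90, 93], [], [91], [92], [], [94, 99], [95, 96],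
   [], [97], [98], [], [100], [], [102, 103], [], [104], [105], [], [107, 108, 111, 135], [],
   [109], [110], [], [112, 117], [113, 114], [], [115], [116], [], [118, 119, 122], [], [120],
   [121], [], [123, 124, 127], [], [125], [126], [], [128, 133], [129, 130], [], [131], [132], [],
   [134], [], [136, 137, 140, 164], [], [138], [139], [], [141, 146], [142, 143], [], [144], [145],
   [], [147, 148, 151], [], [149], [150], [], [152, 153, 156], [], [154], [155], [], [157, 162],
   [158, 159], [], [160], [161], [], [163], [], [165, 178, 183], [166, 167, 170], [], [168], [169],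
   [], [171, 176], [172, 173], [], [174], [175], [], [177], [], [179, 180], [], [181], [182], [],
   [184], [], [186, 187, 190, 214], [], [188], [189], [], [191, 196], [192, 193], [], [194], [195],
   [], [197, 198, 201], [], [199], [200], [], [202, 203, 206], [], [204], [205], [], [207, 212],
   [208, 209], [], [210], [211], [], [213], [], [215, 228, 233], [216, 217, 220], [], [218], [219],
   [], [221, 226], [222, 223], [], [224], [225], [], [227], [], [229, 230], [], [231], [232], [],
   [234], [], [236, 249], [237, 238, 241], [], [239], [240], [], [242, 247], [243, 244], [], [245],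
   [246], [], [248], [], [250, 251], [], [252], [253], []]

/-- parents in the end piece -/
def tp0 : List ℕ := [0, 0, 1, 1, 3, 4, 1, 6, 7, 7, 9, 10, 6, 12, 0, 14, 14, 16, 17, 0, 19, 21, 21]

/-- degrees in the end piece -/
def td0 : List ℕ := [4, 4, 1, 2, 2, 1, 3, 3, 1, 2, 2, 1, 2, 1, 3, 1, 2, 2, 1, 2, 1, 2, 1]

/-- the independent set in the end piece -/
def ti0 : List ℕ := [1, 0, 1, 1, 0, 1, 1, 0, 1, 1, 0, 1, 0, 1, 0, 1, 1, 0, 1, 0, 1, 0, 1]

/-- children in the end piece -/
def tc0 : List (List ℕ) := [[1, 14, 19], [2, 3, 6], [], [4], [5], [], [7, 12], [8, 9], [], [10], [11], [], [13], [], [15,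
   16], [], [17], [18], [], [20], [], [22], []]

/-- The vertices: an end piece and `k + 1` blocks of `254` vertices. -/
abbrev VV (k : ℕ) : Type := Fin 23 ⊕ (Fin (k + 1) × Fin 254)

def pB (r : Fin 254) : Fin 254 := Fin.ofNat 254 (tpB.getD r.val 0)
def p0 (i : Fin 23) : Fin 23 := Fin.ofNat 23 (tp0.getD i.val 0)
def dB (r : Fin 254) : ℕ := tdB.getD r.val 0
def d0 (i : Fin 23) : ℕ := td0.getD i.val 0
def iB (r : Fin 254) : Bool := tiB.getD r.val 0 == 1
def i0 (i : Fin 23) : Bool := ti0.getD i.val 0 == 1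
def cB (r : Fin 254) : List (Fin 254) := (tcB.getD r.val []).map (Fin.ofNat 254)
def c0 (i : Fin 23) : List (Fin 23) := (tc0.getD i.val []).map (Fin.ofNat 23)
def eB : Fin 254 := 235

/-- The parent of a vertex. -/
def par (k : ℕ) : VV k → VV k
  | .inl i => if i = 21 then .inr (Fin.last k, eB) else .inl (p0 i)
  | .inr (q, r) => if r = 0 then
      (if q.val = 0 then .inl 0 else .inr (⟨q.val - 1, by omega⟩, eB)) else .inr (q, pB r)

/-- A depth function. -/
def dep (k : ℕ) : VV k → ℕ
  | .inl i => if i.val < 21 then i.val else 254 * (k + 1) + i.val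
  | .inr (q, r) => 21 + 254 * q.val + r.val

/-- The tree `T_k`. -/
def TT (k : ℕ) : SimpleGraph (VV k) where
  Adj u v := (u ≠ .inl 0 ∧ par k u = v) ∨ (v ≠ .inl 0 ∧ par k v = u)
  symm := ⟨fun _ _ h => h.symm⟩
  loopless := ⟨by
    have hB : ∀ r : Fin 254, r ≠ 0 → pB r ≠ r := by decide +kernel
    have h0 : ∀ i : Fin 23, i ≠ 0 → i ≠ 21 → p0 i ≠ i := by decide +kernel
    intro u h
    have h' : u ≠ .inl 0 ∧ par k u = u := by
      rcases h with ⟨a, b⟩ | ⟨a, b⟩
      · exact ⟨a, b⟩
      · exact ⟨a, b⟩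
    obtain ⟨h1, h2⟩ := h'
    rcases u with i | ⟨q, r⟩
    · unfold par at h2
      by_cases hi : i = 21
      · simp [hi] at h2
      · simp only [hi, if_false, Sum.inl.injEq] at h2
        exact h0 i (fun h => h1 (by rw [h])) hi h2
    · unfold par at h2
      by_cases hr : r = 0
      · by_cases hq : q.val = 0
        · simp [hr, hq] at h2
        · simp only [hr, hq, if_true, if_false, Sum.inr.injEq, Prod.mk.injEq] at h2
          have := h2.1
          rw [Fin.ext_iff] at this
          simp at this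
          omega
      · simp only [hr, if_false, Sum.inr.injEq, Prod.mk.injEq] at h2
        exact hB r hr h2.2⟩

instance (k : ℕ) : DecidableRel (TT k).Adj := fun u v => by unfold TT; infer_instance

/-- The rooting of `T_k`. -/
def RR (k : ℕ) : Rooting (TT k) where
  root := .inl 0
  par := par k
  dep := dep k
  par_dep := by
    have hB : ∀ r : Fin 254, r ≠ 0 → (pB r).val < r.val := by decide +kernel
    have h0 : ∀ i : Fin 23, i ≠ 0 → i ≠ 21 → (p0 i).val < i.val ∧
        (i.val < 21 → (p0 i).val < 21) ∧ (¬ i.val < 21 → ¬ (p0 i).val < 21) := by decide +kernel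
    intro v hv
    rcases v with i | ⟨q, r⟩
    · unfold par
      by_cases hi : i = 21
      · subst hi
        simp only [if_true, dep]
        have : eB.val = 235 := rfl
        simp only [this, Fin.val_last]
        have h21 : ((21 : Fin 23).val) = 21 := rfl
        simp only [h21, lt_irrefl, if_false]
        omega
      · have hi0 : i ≠ 0 := fun h => hv (by rw [h])
        obtain ⟨a1, a2, a3⟩ := h0 i hi0 hi
        simp only [hi, if_false, dep]
        split_ifs <;> omega
    · unfold par
      by_cases hr : r = 0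
      · subst hr
        by_cases hq : q.val = 0
        · simp only [hq, if_true, dep]
          have : ((0 : Fin 23).val) = 0 := rfl
          simp
        · simp only [hq, if_true, if_false, dep]
          have h1 : eB.val = 235 := rfl
          have h2 : ((0 : Fin 254).val) = 0 := rfl
          simp only [h1, h2]
          omega
      · simp only [hr, if_false, dep]
        have := hB r hr
        omega
  adj_iff := fun _ _ => Iff.rfl

/-- The next vertex after the exit of a block. -/
def nxt (k : ℕ) (q : Fin (k + 1)) : VV k :=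
  if h : q.val < k then .inr (⟨q.val + 1, by omega⟩, 0) else .inl 21

/-- Lists of neighbours. -/
def nb (k : ℕ) : VV k → List (VV k)
  | .inl i => (c0 i).map .inl ++ (if i = 0 then [.inr (0, 0)] else [par k (.inl i)])
  | .inr (q, r) => (cB r).map (fun s => .inr (q, s)) ++
      ([par k (.inr (q, r))] ++ (if r = eB then [nxt k q] else []))

/-- Degrees. -/
def dg (k : ℕ) : VV k → ℕ
  | .inl i => d0 i
  | .inr (_, r) => dB r

theorem chk1 : ∀ s : Fin 254, s ≠ 0 → s ∈ cB (pB s) := by decide +kernel
theorem chk2 : ∀ r : Fin 254, ∀ s ∈ cB r, s ≠ 0 ∧ pB s = r := by decide +kernel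
theorem chk3 : ∀ s : Fin 23, s ≠ 0 → s ≠ 21 → s ∈ c0 (p0 s) := by decide +kernel
theorem chk4 : ∀ r : Fin 23, ∀ s ∈ c0 r, s ≠ 0 ∧ s ≠ 21 ∧ p0 s = r := by decide +kernel

theorem adj_nb (k : ℕ) (v u : VV k) : (TT k).Adj v u ↔ u ∈ nb k v := by
  have hadj : (TT k).Adj v u ↔ (v ≠ .inl 0 ∧ par k v = u) ∨ (u ≠ .inl 0 ∧ par k u = v) := Iff.rfl
  rw [hadj]
  rcases v with i | ⟨q, r⟩
  · simp only [nb, List.mem_append, List.mem_map]
    constructor
    · rintro (⟨h1, h2⟩ | ⟨h1, h2⟩)
      · right
        have hi : i ≠ 0 := fun h => h1 (by rw [h])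
        simp [hi, h2]
      · rcases u with j | ⟨q', s⟩
        · left
          have hj0 : j ≠ 0 := fun h => h1 (by rw [h])
          by_cases hj : j = 21
          · simp [par, hj] at h2
          · simp only [par, hj, if_false, Sum.inl.injEq] at h2
            exact ⟨j, by rw [← h2]; exact chk3 j hj0 hj, rfl⟩
        · by_cases hs : s = 0
          · by_cases hq : q'.val = 0
            · simp only [par, hs, hq, if_true, Sum.inl.injEq] at h2
              right
              have hq' : q' = 0 := by ext; simpa using hq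
              rw [if_pos h2.symm, hs, hq']; simp
            · simp [par, hs, hq] at h2
          · simp [par, hs] at h2
    · rintro (⟨j, hj, rfl⟩ | h)
      · right
        obtain ⟨a, b, c⟩ := chk4 i j hj
        exact ⟨by simpa using a, by simp [par, b, c]⟩
      · by_cases hi : i = 0
        · rw [if_pos hi, List.mem_singleton] at h
          subst h
          right
          exact ⟨by simp, by simp [par, hi]⟩
        · rw [if_neg hi, List.mem_singleton] at h
          subst h
          left
          exact ⟨by simpa using hi, rfl⟩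
  · simp only [nb, List.mem_append, List.mem_map, List.mem_singleton]
    constructor
    · rintro (⟨h1, h2⟩ | ⟨h1, h2⟩)
      · right; left; exact h2.symm
      · rcases u with j | ⟨q', s⟩
        · by_cases hj : j = 21
          · simp only [par, hj, if_true, Sum.inr.injEq, Prod.mk.injEq] at h2
            right; right
            rw [if_pos h2.2.symm, List.mem_singleton, hj, ← h2.1]
            simp [nxt]
          · simp [par, hj] at h2
        · by_cases hs : s = 0
          · by_cases hq : q'.val = 0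
            · simp [par, hs, hq] at h2
            · simp only [par, hs, hq, if_true, if_false, Sum.inr.injEq, Prod.mk.injEq] at h2
              right; right
              rw [if_pos h2.2.symm, List.mem_singleton, hs]
              have h3 : q'.val = q.val + 1 := by
                rw [← h2.1]; simp; omega
              have h4 : q.val < k := by have := q'.isLt; omega
              simp only [nxt, h4, dif_pos, Sum.inr.injEq, Prod.mk.injEq, and_true]
              ext; exact h3
          · simp only [par, hs, if_false, Sum.inr.injEq, Prod.mk.injEq] at h2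
            left
            refine ⟨s, ?_, ?_⟩
            · rw [← h2.2]; exact chk1 s hs
            · rw [h2.1]
    · rintro (⟨s, hs, rfl⟩ | h | h)
      · right
        obtain ⟨a, b⟩ := chk2 r s hs
        exact ⟨by simp, by simp [par, a, b]⟩
      · left; exact ⟨by simp, h.symm⟩
      · by_cases hr : r = eB
        · rw [if_pos hr, List.mem_singleton] at h
          right
          subst h
          by_cases hq : q.val < k
          · refine ⟨by simp [nxt, hq], ?_⟩
            simp [nxt, hq, par, hr]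
          · refine ⟨by simp [nxt, hq], ?_⟩
            have : q = Fin.last k := by
              ext; have := q.isLt; simp; omega
            simp [nxt, par, hr, this]
        · rw [if_neg hr] at h; simp at h

theorem chk5 : ∀ i : Fin 23, ((c0 i).map d0 ++ (if i = 0 then [5] else
    [if i = 21 then 4 else d0 (p0 i)])).Nodup ∧
    ((c0 i).map d0 ++ (if i = 0 then [5] else [if i = 21 then 4 else d0 (p0 i)])).length = d0 i := by
  decide +kernel

theorem chk6 : ∀ r : Fin 254, ∀ nd ∈ [5, 2], ((cB r).map dB ++ ([if r = 0 then 4 else dB (pB r)] ++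
    (if r = eB then [nd] else []))).Nodup ∧
    ((cB r).map dB ++ ([if r = 0 then 4 else dB (pB r)] ++
    (if r = eB then [nd] else []))).length = dB r := by
  decide +kernel

theorem nb_deg (k : ℕ) (v : VV k) : ((nb k v).map (dg k)).Nodup ∧ (nb k v).length = dg k v := by
  rcases v with i | ⟨q, r⟩
  · have h := chk5 i
    have e : (nb k (.inl i)).map (dg k) = (c0 i).map d0 ++ (if i = 0 then [5] else
        [if i = 21 then 4 else d0 (p0 i)]) := by
      simp only [nb, List.map_append, List.map_map]
      congr 1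
      by_cases hi : i = 0
      · simp only [hi, if_true]; rfl
      · simp only [hi, if_false, List.map_cons, List.map_nil]
        by_cases hi2 : i = 21
        · simp only [hi2, if_true, par]; rfl
        · simp only [hi2, if_false, par]; rfl
    refine ⟨by rw [e]; exact h.1, ?_⟩
    have := h.2
    rw [← e, List.length_map] at this
    exact this
  · have key : ∃ nd ∈ [5, 2], (nb k (.inr (q, r))).map (dg k) =
        (cB r).map dB ++ ([if r = 0 then 4 else dB (pB r)] ++ (if r = eB then [nd] else [])) := by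
      have h1 : ∃ nd ∈ [5, 2], dg k (nxt k q) = nd := by
        by_cases hq : q.val < k
        · exact ⟨5, by simp, by simp only [nxt, hq, dif_pos]; rfl⟩
        · exact ⟨2, by simp, by simp only [nxt, hq]; rfl⟩
      obtain ⟨nd, hnd, h1⟩ := h1
      refine ⟨nd, hnd, ?_⟩
      simp only [nb, List.map_append, List.map_map]
      congr 1
      congr 1
      · by_cases hr : r = 0
        · by_cases hq : q.val = 0
          · simp only [hr, hq, if_true, par, List.map_cons, List.map_nil]; rfl
          · simp only [hr, hq, if_true, if_false, par, List.map_cons, List.map_nil]; rfl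
        · simp only [hr, if_false, par, List.map_cons, List.map_nil]; rfl
      · by_cases hr : r = eB
        · simp only [hr, if_true, List.map_cons, List.map_nil, h1]
        · simp only [hr, if_false, List.map_nil]
    obtain ⟨nd, hnd, e⟩ := key
    have h := chk6 r nd hnd
    refine ⟨by rw [e]; exact h.1, ?_⟩
    have := h.2
    rw [← e, List.length_map] at this
    exact this

/-- Degrees and irregularity from lists of neighbours. -/
theorem irregular_of_lists {V : Type} [Fintype V] [DecidableEq V] (G : SimpleGraph V)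
    [DecidableRel G.Adj] (nb : V → List V) (dg : V → ℕ)
    (h1 : ∀ v u, G.Adj v u ↔ u ∈ nb v) (h2 : ∀ v, ((nb v).map dg).Nodup)
    (h3 : ∀ v, (nb v).length = dg v) : HighlyIrregular G := by
  have hdeg : ∀ v, G.degree v = dg v := by
    intro v
    rw [← G.card_neighborFinset_eq_degree, ← h3 v]
    have hnd : (nb v).Nodup := List.Nodup.of_map _ (h2 v)
    have : G.neighborFinset v = (nb v).toFinset := by
      ext u
      rw [G.mem_neighborFinset, List.mem_toFinset, h1]
    rw [this, List.toFinset_card_of_nodup hnd]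
  intro v u w hu hw hne h
  rw [hdeg, hdeg] at h
  exact hne (List.inj_on_of_nodup_map (h2 v) ((h1 v u).mp hu) ((h1 v w).mp hw) h)

theorem TT_irregular (k : ℕ) : HighlyIrregular (TT k) :=
  irregular_of_lists (TT k) (nb k) (dg k) (adj_nb k) (fun v => (nb_deg k v).1)
    (fun v => (nb_deg k v).2)

/-- Membership in the independent set. -/
def inI (k : ℕ) : VV k → Bool
  | .inl i => i0 i
  | .inr (_, r) => iB r

theorem TT_indep (k : ℕ) (u v : VV k) (hu : inI k u = true) (hv : inI k v = true) :
    ¬ (TT k).Adj u v := by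
  have hB : ∀ r : Fin 254, r ≠ 0 → ¬ (iB r = true ∧ iB (pB r) = true) := by decide +kernel
  have hB0 : iB 0 = false := by decide +kernel
  have h0 : ∀ i : Fin 23, i ≠ 0 → i ≠ 21 → ¬ (i0 i = true ∧ i0 (p0 i) = true) := by decide +kernel
  have h01 : i0 21 = false := by decide +kernel
  have key : ∀ u : VV k, u ≠ .inl 0 → inI k u = true → inI k (par k u) = true → False := by
    intro u hu0 hu hp
    rcases u with i | ⟨q, r⟩
    · by_cases hi : i = 21
      · rw [hi] at hu
        simp only [inI, h01] at hu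
        exact absurd hu (by decide)
      · simp only [par, hi, if_false, inI] at hp hu
        exact h0 i (fun h => hu0 (by rw [h])) hi ⟨hu, hp⟩
    · by_cases hr : r = 0
      · rw [hr] at hu
        simp only [inI, hB0] at hu
        exact absurd hu (by decide)
      · simp only [par, hr, if_false, inI] at hp hu
        exact hB r hr ⟨hu, hp⟩
  rintro (⟨a, b⟩ | ⟨a, b⟩)
  · rw [← b] at hv; exact key u a hu hv
  · rw [← b] at hu; exact key v a hv hu

theorem TT_card (k : ℕ) : Fintype.card (VV k) = 23 + 254 * (k + 1) := by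
  simp [VV, mul_comm]

theorem TT_cardI (k : ℕ) : (Finset.univ.filter (fun v : VV k => inI k v = true)).card =
    14 + 158 * (k + 1) := by
  have h1 : (∑ i : Fin 23, if i0 i = true then 1 else 0) = 14 := by decide +kernel
  have h2 : (∑ r : Fin 254, if iB r = true then 1 else 0) = 158 := by decide +kernel
  rw [Finset.card_filter, Fintype.sum_sum_type, Fintype.sum_prod_type]
  have e1 : (∑ i : Fin 23, if inI k (.inl i) = true then 1 else 0) = 14 := h1
  have e2 : (∑ q : Fin (k + 1), ∑ r : Fin 254, if inI k (.inr (q, r)) = true then 1 else 0) =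
      158 * (k + 1) := by
    have e3 : ∀ q : Fin (k + 1), (∑ r : Fin 254,
      if inI k (.inr (q, r)) = true then 1 else 0) = 158 := fun q => h2
    exact (Finset.sum_congr rfl (fun q _ => e3 q)).trans (by simp [mul_comm])
  rw [e1, e2]

/-! ### The extremal tree on 26 vertices -/

def t26p : List ℕ := [0, 0, 0, 2, 3, 0, 5, 6, 6, 8, 9, 5, 11, 0, 13, 13, 15, 16, 13, 18, 19, 19, 21, 22, 18, 24]
def t26i : List ℕ := [0, 1, 1, 0, 1, 1, 0, 1, 1, 0, 1, 0, 1, 0, 1, 1, 0, 1, 1, 0, 1, 1, 0, 1, 0, 1]

def p26 (v : Fin 26) : Fin 26 := Fin.ofNat 26 (t26p.getD v.val 0)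

def T26 : SimpleGraph (Fin 26) where
  Adj u v := (u ≠ 0 ∧ p26 u = v) ∨ (v ≠ 0 ∧ p26 v = u)
  symm := ⟨fun _ _ h => h.symm⟩
  loopless := ⟨by decide +kernel⟩

instance : DecidableRel T26.Adj := fun u v => by unfold T26; infer_instance

theorem T26_isTree : T26.IsTree := by
  let R : Rooting T26 := ⟨0, p26, fun v => v.val, by decide +kernel, fun _ _ => Iff.rfl⟩
  exact R.isTree

/-- The independence number. -/
noncomputable def alpha {V : Type} [Fintype V] (G : SimpleGraph V) : ℕ :=
  sSup {m | ∃ I : Finset V, (∀ u ∈ I, ∀ v ∈ I, ¬ G.Adj u v) ∧ I.card = m}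

theorem alpha_spec {V : Type} [Fintype V] (G : SimpleGraph V) :
    ∃ I : Finset V, (∀ u ∈ I, ∀ v ∈ I, ¬ G.Adj u v) ∧ I.card = alpha G := by
  have hb : BddAbove {m | ∃ I : Finset V, (∀ u ∈ I, ∀ v ∈ I, ¬ G.Adj u v) ∧ I.card = m} := by
    refine ⟨Fintype.card V, ?_⟩
    rintro m ⟨I, _, rfl⟩
    exact Finset.card_le_univ I
  have hne : {m | ∃ I : Finset V, (∀ u ∈ I, ∀ v ∈ I, ¬ G.Adj u v) ∧ I.card = m}.Nonempty :=
    ⟨0, ∅, by simp, by simp⟩
  exact Nat.sSup_mem hne hb

theorem le_alpha {V : Type} [Fintype V] (G : SimpleGraph V) (I : Finset V)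
    (h : ∀ u ∈ I, ∀ v ∈ I, ¬ G.Adj u v) : I.card ≤ alpha G := by
  have hb : BddAbove {m | ∃ I : Finset V, (∀ u ∈ I, ∀ v ∈ I, ¬ G.Adj u v) ∧ I.card = m} := by
    refine ⟨Fintype.card V, ?_⟩
    rintro m ⟨I, _, rfl⟩
    exact Finset.card_le_univ I
  exact le_csSup hb (show _ ∈ {m | ∃ I : Finset V, (∀ u ∈ I, ∀ v ∈ I, ¬ G.Adj u v) ∧ I.card = m} from
    ⟨I, h, rfl⟩)

theorem upper_alpha {V : Type} [Fintype V] (G : SimpleGraph V) [DecidableRel G.Adj]
    (hG : G.IsTree) (hH : HighlyIrregular G) (hV : 2 ≤ Fintype.card V) :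
    127 * (alpha G : ℤ) ≤ 79 * (Fintype.card V : ℤ) - 22 := by
  obtain ⟨I, h, hc⟩ := alpha_spec G
  rw [← hc]
  exact upper G hG hH hV I h

theorem T26_irregular : HighlyIrregular T26 := by
  have h : ∀ v u w, T26.Adj v u → T26.Adj v w → u ≠ w → T26.degree u ≠ T26.degree w := by
    decide +kernel
  exact h

theorem T26_alpha : 127 * (alpha T26 : ℤ) = 79 * (Fintype.card (Fin 26) : ℤ) - 22 := by
  have h1 := upper_alpha T26 T26_isTree T26_irregular (by simp)
  have h2 := le_alpha T26 (Finset.univ.filter (fun v : Fin 26 => t26i.getD v.val 0 = 1))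
    (by decide +kernel)
  have h3 : (Finset.univ.filter (fun v : Fin 26 => t26i.getD v.val 0 = 1)).card = 16 := by
    decide +kernel
  rw [h3] at h2
  have h4 : (16 : ℤ) ≤ alpha T26 := by exact_mod_cast h2
  simp only [Fintype.card_fin] at h1 ⊢
  push_cast at h1 ⊢
  omega

/-- `c* = 79/127`; moreover `α(T) ≤ (79 n - 22)/127` for every highly irregular tree of order
`n ≥ 2`, with equality for some such tree. -/
theorem result :
    IsLUB {x : ℝ | ∃ (V : Type) (_ : Fintype V) (G : SimpleGraph V) (_ : DecidableRel G.Adj),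
      G.IsTree ∧ HighlyIrregular G ∧ 2 ≤ Fintype.card V ∧
        x = (alpha G : ℝ) / (Fintype.card V : ℝ)} (79 / 127) ∧
    (∀ (V : Type) [Fintype V] (G : SimpleGraph V) [DecidableRel G.Adj], G.IsTree →
      HighlyIrregular G → 2 ≤ Fintype.card V →
        (alpha G : ℝ) ≤ (79 * (Fintype.card V : ℝ) - 22) / 127) ∧
    ∃ (V : Type) (_ : Fintype V) (G : SimpleGraph V) (_ : DecidableRel G.Adj),
      G.IsTree ∧ HighlyIrregular G ∧ 2 ≤ Fintype.card V ∧
        (alpha G : ℝ) = (79 * (Fintype.card V : ℝ) - 22) / 127 := by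
  have hup : ∀ (V : Type) [Fintype V] (G : SimpleGraph V) [DecidableRel G.Adj], G.IsTree →
      HighlyIrregular G → 2 ≤ Fintype.card V →
        (alpha G : ℝ) ≤ (79 * (Fintype.card V : ℝ) - 22) / 127 := by
    intro V _ G _ h1 h2 h3
    have h : ((127 * (alpha G : ℤ) : ℤ) : ℝ) ≤ ((79 * (Fintype.card V : ℤ) - 22 : ℤ) : ℝ) := by
      exact_mod_cast upper_alpha G h1 h2 h3
    push_cast at h
    linarith
  refine ⟨⟨?_, ?_⟩, hup, ?_⟩
  · rintro x ⟨V, _, G, _, h1, h2, h3, rfl⟩
    have h := hup V G h1 h2 h3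
    have hpos : (0 : ℝ) < Fintype.card V := by
      have : 0 < Fintype.card V := by omega
      exact_mod_cast this
    rw [div_le_iff₀ hpos]
    linarith
  · intro b hb
    by_contra hlt
    push Not at hlt
    obtain ⟨k, hk⟩ := exists_nat_gt (1 / (79 / 127 - b))
    have hδ : 0 < 79 / 127 - b := by linarith
    have hcard : (Fintype.card (VV k) : ℝ) = 23 + 254 * ((k : ℝ) + 1) := by
      rw [TT_card]; push_cast; ring
    have hpos : (0 : ℝ) < 23 + 254 * ((k : ℝ) + 1) := by positivity
    have hmem := hb ⟨VV k, inferInstance, TT k, inferInstance, (RR k).isTree, TT_irregular k,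
      by rw [TT_card]; omega, rfl⟩
    have hα : (14 + 158 * ((k : ℝ) + 1)) ≤ (alpha (TT k) : ℝ) := by
      have h := le_alpha (TT k) (Finset.univ.filter (fun v : VV k => inI k v = true)) (by
        intro u hu v hv
        rw [Finset.mem_filter] at hu hv
        exact TT_indep k u v hu.2 hv.2)
      rw [TT_cardI] at h
      have : ((14 + 158 * (k + 1) : ℕ) : ℝ) ≤ (alpha (TT k) : ℝ) := by exact_mod_cast h
      push_cast at this
      exact this
    rw [hcard, div_le_iff₀ hpos] at hmem
    rw [div_lt_iff₀ hδ] at hk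
    have hk0 : (0 : ℝ) ≤ k := Nat.cast_nonneg k
    nlinarith
  · refine ⟨Fin 26, inferInstance, T26, inferInstance, T26_isTree, T26_irregular, by simp, ?_⟩
    have h := T26_alpha
    have h' : ((127 * (alpha T26 : ℤ) : ℤ) : ℝ) = ((79 * (Fintype.card (Fin 26) : ℤ) - 22 : ℤ) : ℝ) := by
      exact_mod_cast h
    push_cast at h'
    linarith

end Pool.Agent.Results.MP_913bbb_co.HighlyIrregularTrees
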